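import Mathlib

/-!
# APS-fairness and PROP1 for weighted additive goods

For two or more agents with entitlements `w`, APS-fairness implies PROP1 for all additive goods
valuations if and only if no entitlement exceeds one half.  When some entitlement exceeds one
half there is a counterexample with identical, strictly positive valuations.
-/

namespace Pool.Agent.Results.MP_4956c5_co.NotPropOne

open Finset

variable {M : Type} [Fintype M] [DecidableEq M]

/-- Value of a bundle under an additive valuation. -/
def val (v : M → ℝ) (S : Finset M) : ℝ := ∑ j ∈ S, v j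

/-- Price vectors: nonnegative, total price one. -/
def IsPrice (p : M → ℝ) : Prop := (∀ j, 0 ≤ p j) ∧ ∑ j, p j = 1

/-- The values of the bundles affordable at prices `p` with budget `w`. -/
def affordable (v p : M → ℝ) (w : ℝ) : Set ℝ :=
  {x | ∃ S : Finset M, ∑ j ∈ S, p j ≤ w ∧ x = val v S}

/-- The AnyPrice share: minimum over prices of the maximum value of an affordable bundle. -/
noncomputable def APS (v : M → ℝ) (w : ℝ) : ℝ :=
  sInf {x | ∃ p : M → ℝ, IsPrice p ∧ x = sSup (affordable v p w)}

/-- `A` is an allocation of the whole item set: every item goes to exactly one agent. -/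
def IsAllocation {n : ℕ} (A : Fin n → Finset M) : Prop := ∀ j, ∃! i, j ∈ A i

/-- APS-fairness. -/
def APSFair {n : ℕ} (w : Fin n → ℝ) (v : Fin n → M → ℝ) (A : Fin n → Finset M) : Prop :=
  ∀ i, APS (v i) (w i) ≤ val (v i) (A i)

/-- PROP1 with entitlements. -/
def PROP1 {n : ℕ} (w : Fin n → ℝ) (v : Fin n → M → ℝ) (A : Fin n → Finset M) : Prop :=
  ∀ i, w i * val (v i) univ ≤ val (v i) (A i) ∨
    ∃ g, g ∉ A i ∧ w i * val (v i) univ ≤ val (v i) (insert g (A i))

omit [DecidableEq M] in
lemma affordable_bddAbove (v p : M → ℝ) (w : ℝ) : BddAbove (affordable v p w) := by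
  have hfin : (affordable v p w).Finite := by
    apply Set.Finite.subset (Set.finite_range (fun S : Finset M => val v S))
    rintro x ⟨S, -, rfl⟩
    exact ⟨S, rfl⟩
  exact hfin.bddAbove

omit [DecidableEq M] in
lemma sSup_nonneg' (v p : M → ℝ) {w : ℝ} (hw : 0 < w) : 0 ≤ sSup (affordable v p w) :=
  le_csSup (affordable_bddAbove v p w) ⟨∅, by simpa using hw.le, by simp [val]⟩

omit [DecidableEq M] in
/-- Upper bound on the AnyPrice share from one price vector. -/
lemma APS_le {v p : M → ℝ} {w c : ℝ} (hw : 0 < w) (hp : IsPrice p)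
    (h : ∀ S : Finset M, ∑ j ∈ S, p j ≤ w → val v S ≤ c) : APS v w ≤ c := by
  have h1 : APS v w ≤ sSup (affordable v p w) := by
    refine csInf_le ⟨0, ?_⟩ ⟨p, hp, rfl⟩
    rintro x ⟨q, -, rfl⟩
    exact sSup_nonneg' v q hw
  refine h1.trans (csSup_le ⟨0, ∅, by simpa using hw.le, by simp [val]⟩ ?_)
  rintro x ⟨S, hS, rfl⟩
  exact h S hS

/-- A lower bound for the AnyPrice share. -/
lemma lt_APS {v : M → ℝ} {w x : ℝ} [Nonempty M]
    (h : ∀ p : M → ℝ, IsPrice p → ∃ S : Finset M, ∑ j ∈ S, p j ≤ w ∧ x < val v S) :
    x < APS v w := by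
  classical
  -- a price vector exists
  obtain ⟨a⟩ := ‹Nonempty M›
  have hp0 : IsPrice (fun j : M => if j = a then (1 : ℝ) else 0) := by
    refine ⟨fun j => by dsimp only; split_ifs <;> norm_num, by simp⟩
  obtain ⟨S0, -, hS0⟩ := h _ hp0
  let F : Finset (Finset M) := univ.filter (fun S => x < val v S)
  have hF : F.Nonempty := ⟨S0, by simp [F, hS0]⟩
  obtain ⟨S1, hS1, hmin⟩ := F.exists_min_image (fun S => val v S) hF
  have hx1 : x < val v S1 := by simpa [F] using hS1
  refine hx1.trans_le (le_csInf ⟨_, _, hp0, rfl⟩ ?_)
  rintro y ⟨p, hp, rfl⟩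
  obtain ⟨S, hS, hxS⟩ := h p hp
  exact (hmin S (by simp [F, hxS])).trans (le_csSup (affordable_bddAbove v p w) ⟨S, hS, rfl⟩)

omit [Fintype M] in
/-- Removing a suitable element keeps a nonpositive sum nonpositive. -/
lemma exists_remove {S : Finset M} (hS : S.Nonempty) (t : M → ℝ) (h : ∑ j ∈ S, t j ≤ 0) :
    ∃ g ∈ S, ∑ j ∈ S.erase g, t j ≤ 0 := by
  obtain ⟨g, hg, hmax⟩ := S.exists_max_image t hS
  refine ⟨g, hg, ?_⟩
  have h1 := Finset.sum_erase_eq_sub (f := t) hg
  rcases le_or_gt 0 (t g) with h0 | h0
  · linarith
  · exact Finset.sum_nonpos fun j hj => (hmax j (mem_of_mem_erase hj)).trans h0.le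

/-- The heart of the positive direction. -/
lemma key {v p : M → ℝ} (hv : ∀ j, 0 ≤ v j) (hp : IsPrice p) {w : ℝ} (hw : w ≤ 1 / 2)
    (A : Finset M) (hA : val v A < w * val v univ)
    (hA' : ∀ g, g ∉ A → val v (insert g A) < w * val v univ) :
    ∃ S : Finset M, ∑ j ∈ S, p j ≤ w ∧ val v A < val v S := by
  classical
  set V := val v univ with hV
  set x := val v A with hx
  set P := ∑ j ∈ A, p j with hP
  have hx0 : 0 ≤ x := Finset.sum_nonneg fun j _ => hv j
  have hV0 : 0 ≤ V := Finset.sum_nonneg fun j _ => hv j
  have hP0 : 0 ≤ P := Finset.sum_nonneg fun j _ => hp.1 j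
  have hwV : 0 < w * V := lt_of_le_of_lt hx0 hA
  have hVpos : 0 < V := by
    rcases hV0.lt_or_eq with h | h
    · exact h
    · rw [← h] at hwV; simp at hwV
  have hw0 : 0 < w := by
    by_contra hcon
    push Not at hcon
    nlinarith
  have hvO : val v Aᶜ = V - x := by
    have := Finset.sum_add_sum_compl A v
    simp only [val, hV, hx] at *
    linarith
  have hpO : ∑ j ∈ Aᶜ, p j = 1 - P := by
    have := Finset.sum_add_sum_compl A p
    rw [hp.2] at this
    linarith
  have hins : ∀ g, g ∉ A → x + v g < w * V := by
    intro g hg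
    have := hA' g hg
    rw [val, Finset.sum_insert hg] at this
    have h2 : ∑ j ∈ A, v j = x := rfl
    linarith
  have hxV : 2 * x < V := by nlinarith
  rcases le_or_gt x (P * V) with hc | hc
  · -- greedy outside A
    let F : Finset (Finset M) := univ.filter (fun S => S ⊆ Aᶜ ∧ x < val v S ∧
      ∑ j ∈ S, (p j * (V - x) - v j * (1 - P)) ≤ 0)
    have hF : F.Nonempty := by
      refine ⟨Aᶜ, ?_⟩
      simp only [F, mem_filter, mem_univ, true_and, subset_refl]
      refine ⟨by rw [hvO]; linarith, ?_⟩
      rw [Finset.sum_sub_distrib, ← Finset.sum_mul, ← Finset.sum_mul, hpO]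
      have : ∑ j ∈ Aᶜ, v j = V - x := hvO
      rw [this]
      linarith [mul_comm (1 - P) (V - x)]
    obtain ⟨S, hSF, hmin⟩ := F.exists_min_image (fun S => S.card) hF
    simp only [F, mem_filter, mem_univ, true_and] at hSF
    obtain ⟨hSA, hxS, hSt⟩ := hSF
    have hSne : S.Nonempty := by
      rw [Finset.nonempty_iff_ne_empty]
      rintro rfl
      simp [val] at hxS
      linarith
    obtain ⟨g, hg, hrem⟩ := exists_remove hSne _ hSt
    have hle : val v (S.erase g) ≤ x := by
      by_contra hcon
      push Not at hcon
      have h1 := hmin (S.erase g) (by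
        simp only [F, mem_filter, mem_univ, true_and]
        exact ⟨(Finset.erase_subset _ _).trans hSA, hcon, hrem⟩)
      have h2 := Finset.card_erase_lt_of_mem hg
      omega
    have hgA : g ∉ A := by
      have := hSA hg
      simpa using this
    have hvS : val v S ≤ x + v g := by
      have h1 := Finset.sum_erase_eq_sub (f := v) hg
      simp only [val] at hle ⊢
      linarith
    have hvS' : val v S < w * V := lt_of_le_of_lt hvS (hins g hgA)
    refine ⟨S, ?_, hxS⟩
    rw [Finset.sum_sub_distrib, ← Finset.sum_mul, ← Finset.sum_mul] at hSt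
    have e1 : ∑ j ∈ S, v j = val v S := rfl
    rw [e1] at hSt
    have hP1 : 0 ≤ 1 - P := by
      rw [← hpO]; exact Finset.sum_nonneg fun j _ => hp.1 j
    have h3 : (∑ j ∈ S, p j) * (V - x) ≤ w * (V - x) := by
      calc (∑ j ∈ S, p j) * (V - x) ≤ val v S * (1 - P) := by linarith
        _ ≤ (w * V) * (1 - P) := by
          apply mul_le_mul_of_nonneg_right hvS'.le hP1
        _ = w * (V - P * V) := by ring
        _ ≤ w * (V - x) := by
          apply mul_le_mul_of_nonneg_left _ hw0.le
          linarith
    exact le_of_mul_le_mul_right h3 (by linarith)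
  · -- cheapest outside item of positive value added to A
    let Q : Finset M := Aᶜ.filter (fun j => 0 < v j)
    have hvQ : ∑ j ∈ Q, v j = V - x := by
      rw [← hvO, val, Finset.sum_filter]
      apply Finset.sum_congr rfl
      intro j _
      split_ifs with h
      · rfl
      · exact le_antisymm (hv j) (not_lt.mp h)
    have hQne : Q.Nonempty := by
      rw [Finset.nonempty_iff_ne_empty]
      intro h
      rw [h] at hvQ
      simp at hvQ
      linarith
    obtain ⟨g, hg, hmin⟩ := Q.exists_min_image p hQne
    have hgA : g ∉ A := by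
      have := (Finset.mem_filter.mp hg).1
      simpa using this
    have hvg : 0 < v g := (Finset.mem_filter.mp hg).2
    refine ⟨insert g A, ?_, ?_⟩
    · rw [Finset.sum_insert hgA]
      by_contra hcon
      push Not at hcon
      have hPw : P < w := by
        have : P * V < w * V := hc.trans hA
        exact lt_of_mul_lt_mul_right this hV0
      have hN : (0 : ℝ) < Q.card := by exact_mod_cast hQne.card_pos
      have h1 : (Q.card : ℝ) * p g ≤ 1 - P := by
        rw [← hpO]
        calc (Q.card : ℝ) * p g = ∑ j ∈ Q, p g := by simp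
          _ ≤ ∑ j ∈ Q, p j := Finset.sum_le_sum hmin
          _ ≤ ∑ j ∈ Aᶜ, p j := Finset.sum_le_sum_of_subset_of_nonneg
              (Finset.filter_subset _ _) (fun j _ _ => hp.1 j)
      have h2 : V - x ≤ Q.card * (w * V - x) := by
        rw [← hvQ]
        calc ∑ j ∈ Q, v j ≤ ∑ j ∈ Q, (w * V - x) := by
              apply Finset.sum_le_sum
              intro j hj
              have hjA : j ∉ A := by
                have := (Finset.mem_filter.mp hj).1
                simpa using this
              linarith [hins j hjA]
          _ = Q.card * (w * V - x) := by rw [Finset.sum_const, nsmul_eq_mul]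
      have h3 : (Q.card : ℝ) * (w - P) < 1 - P := by
        have : (Q.card : ℝ) * (w - P) < Q.card * p g := by
          apply mul_lt_mul_of_pos_left _ hN
          linarith
        linarith
      have h4 : (V - x) * (w - P) ≤ (Q.card * (w * V - x)) * (w - P) :=
        mul_le_mul_of_nonneg_right h2 (by linarith)
      have h5 : (Q.card * (w - P)) * (w * V - x) < (1 - P) * (w * V - x) :=
        mul_lt_mul_of_pos_right h3 (by linarith)
      have h6 : 0 < (x - P * V) * (1 - w) := mul_pos (by linarith) (by linarith)
      nlinarith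
    · rw [val, Finset.sum_insert hgA]
      have : ∑ j ∈ A, v j = x := rfl
      linarith

/-- Positive direction for one agent. -/
lemma positive {v : M → ℝ} (hv : ∀ j, 0 ≤ v j) {w : ℝ} (hw : w ≤ 1 / 2)
    (A : Finset M) (hfair : APS v w ≤ val v A) :
    w * val v univ ≤ val v A ∨ ∃ g, g ∉ A ∧ w * val v univ ≤ val v (insert g A) := by
  by_contra hcon
  push Not at hcon
  obtain ⟨h1, h2⟩ := hcon
  have hne : Nonempty M := by
    by_contra hM
    rw [not_nonempty_iff] at hM
    have e1 : val v univ = 0 := by simp [val]
    have e2 : val v A = 0 := by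
      have : A = ∅ := Finset.eq_empty_of_isEmpty A
      simp [val, this]
    rw [e1, e2] at h1
    simp at h1
  have := lt_APS (v := v) (w := w) (x := val v A) (fun p hp => key hv hp hw A h1 h2)
  linarith

/-- Negative direction. -/
lemma negative {n : ℕ} (hn : 2 ≤ n) (w : Fin n → ℝ) (hw : ∀ i, 0 < w i) (hsum : ∑ i, w i = 1)
    (i₀ : Fin n) (hi₀ : 1 / 2 < w i₀) :
    ∃ (M : Type) (_ : Fintype M) (_ : DecidableEq M) (u : M → ℝ), (∀ j, 0 < u j) ∧
      ∃ A : Fin n → Finset M, IsAllocation A ∧ APSFair w (fun _ => u) A ∧
        ¬ PROP1 w (fun _ => u) A := by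
  classical
  -- the sum of the other entitlements
  have hrest : ∑ j : {j : Fin n // j ≠ i₀}, w j = 1 - w i₀ := by
    have h1 := Finset.sum_erase_eq_sub (f := w) (Finset.mem_univ i₀)
    rw [hsum] at h1
    rw [← h1]
    symm
    apply Finset.sum_subtype
    intro j
    simp
  have hnn : Nontrivial (Fin n) := Fin.nontrivial_iff_two_le.mpr hn
  obtain ⟨j₀, hj₀⟩ : ∃ j₀ : Fin n, j₀ ≠ i₀ := exists_ne i₀
  set r : ℝ := 1 - w i₀ with hr
  have hrpos : 0 < r := by
    rw [← hrest]
    exact Finset.sum_pos (fun j _ => hw j) ⟨⟨j₀, hj₀⟩, Finset.mem_univ _⟩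
  have hr2 : r < 1 / 2 := by rw [hr]; linarith
  -- number of grains per agent
  obtain ⟨k, hk⟩ := exists_nat_gt (1 / (w i₀ - 1 / 2))
  have hd : 0 < w i₀ - 1 / 2 := by linarith
  have hkpos : (0 : ℝ) < k := lt_trans (by positivity) hk
  have hk' : (1 : ℝ) / k < w i₀ - 1 / 2 := by
    rw [div_lt_iff₀ hkpos]
    rw [div_lt_iff₀ hd] at hk
    linarith [mul_comm (k : ℝ) (w i₀ - 1 / 2)]
  have hkne : k ≠ 0 := by rintro rfl; simp at hkpos
  let M := Option ({j : Fin n // j ≠ i₀} × Fin k)
  let u : M → ℝ := fun g => match g with
    | none => 1 / 2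
    | some (j, _) => w j / (2 * r * k)
  let q : ℝ := (1 + w i₀) / 2
  let p : M → ℝ := fun g => match g with
    | none => q
    | some (j, _) => w j / (r * k) * (1 - q)
  let A : Fin n → Finset M := fun i =>
    if h : i = i₀ then {none} else (univ : Finset (Fin k)).image (fun t => some (⟨i, h⟩, t))
  have hq : w i₀ < q := by simp only [q]; linarith
  have hq1 : q < 1 := by simp only [q]; linarith
  have hupos : ∀ j, 0 < u j := by
    rintro (_ | ⟨j, t⟩)
    · simp [u]
    · have := hw j
      simp only [u]
      positivity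
  have husum : ∑ j, u j = 1 := by
    rw [Fintype.sum_option]
    rw [Fintype.sum_prod_type]
    simp only [u, Finset.sum_const, Finset.card_univ, Fintype.card_fin, nsmul_eq_mul]
    have : ∀ x : {j : Fin n // j ≠ i₀}, (k : ℝ) * (w x / (2 * r * k)) = w x / (2 * r) := by
      intro x; field_simp
    simp only [this]
    rw [← Finset.sum_div, hrest]
    field_simp
    norm_num
  have hpprice : IsPrice p := by
    constructor
    · rintro (_ | ⟨j, t⟩)
      · simp only [p]; linarith
      · have := hw j
        have : 0 < 1 - q := by linarith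
        simp only [p]
        positivity
    · rw [Fintype.sum_option]
      rw [Fintype.sum_prod_type]
      simp only [p, Finset.sum_const, Finset.card_univ, Fintype.card_fin, nsmul_eq_mul]
      have : ∀ x : {j : Fin n // j ≠ i₀}, (k : ℝ) * (w x / (r * k) * (1 - q))
          = w x * ((1 - q) / r) := by
        intro x; field_simp
      simp only [this]
      rw [← Finset.sum_mul, hrest]
      field_simp
      ring
  refine ⟨M, inferInstance, inferInstance, u, hupos, A, ?_, ?_, ?_⟩
  · rintro (_ | ⟨j, t⟩)
    · refine ⟨i₀, by simp [A], ?_⟩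
      intro i hi
      by_contra h
      simp [A, h] at hi
    · refine ⟨j, by simp [A, j.2], ?_⟩
      intro i hi
      by_cases h : i = i₀
      · simp [A, h] at hi
      · simp only [A, h, dite_false, mem_image, mem_univ, true_and] at hi
        obtain ⟨t', ht'⟩ := hi
        have h2 := Option.some.inj ht'
        have h3 := congrArg (fun z => (z.1 : Fin n)) h2
        exact h3
  · intro i
    by_cases h : i = i₀
    · subst h
      have hval : val u (A i) = 1 / 2 := by simp [A, val, u]
      rw [hval]
      refine APS_le (hw i) hpprice ?_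
      intro S hS
      have hnone : none ∉ S := by
        intro hmem
        have : p none ≤ ∑ j ∈ S, p j :=
          Finset.single_le_sum (f := p) (fun j _ => hpprice.1 j) hmem
        have e : p none = q := rfl
        linarith
      have hsub : S ⊆ univ.erase none := by
        intro g hg
        rw [Finset.mem_erase]
        refine ⟨?_, mem_univ _⟩
        rintro rfl
        exact hnone hg
      calc val u S ≤ ∑ j ∈ univ.erase none, u j :=
            Finset.sum_le_sum_of_subset_of_nonneg hsub (fun j _ _ => (hupos j).le)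
        _ = ∑ j, u j - u none := Finset.sum_erase_eq_sub (Finset.mem_univ _)
        _ = 1 / 2 := by rw [husum]; simp only [u]; norm_num
    · have hval : val u (A i) = w i / (2 * r) := by
        simp only [A, h, dite_false, val]
        rw [Finset.sum_image]
        · simp only [u, Finset.sum_const, Finset.card_univ, Fintype.card_fin, nsmul_eq_mul]
          field_simp
        · intro a _ b _ hab
          have h2 := Option.some.inj hab
          exact congrArg (fun z => z.2) h2
      have huprice : IsPrice u := ⟨fun j => (hupos j).le, husum⟩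
      refine (APS_le (c := w i) (hw i) huprice (fun S hS => hS)).trans ?_
      change w i ≤ val u (A i)
      rw [hval, le_div_iff₀ (by positivity)]
      have := hw i
      nlinarith
  · intro hprop
    have h1 := hprop i₀
    have huniv : val u univ = 1 := husum
    have hval : val u (A i₀) = 1 / 2 := by simp [A, val, u]
    rcases h1 with h1 | ⟨g, hg, h1⟩
    · simp only [huniv, hval] at h1
      linarith
    · have hg' : g ≠ none := by
        rintro rfl
        simp [A] at hg
      have e : val u (insert g (A i₀)) = u g + 1 / 2 := by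
        rw [val, Finset.sum_insert hg]
        have : ∑ j ∈ A i₀, u j = 1 / 2 := hval
        rw [this]
      simp only [huniv, e] at h1
      rcases g with _ | ⟨j, t⟩
      · exact hg' rfl
      · have h2 : u (some (j, t)) = w j / (2 * r * k) := rfl
        have h3 : w j ≤ r := by
          rw [← hrest]
          exact Finset.single_le_sum (f := fun j : {j : Fin n // j ≠ i₀} => w j)
            (fun j _ => (hw j).le) (Finset.mem_univ j)
        have h4 : w j / (2 * r * k) ≤ 1 / (2 * k) := by
          rw [div_le_div_iff₀ (by positivity) (by positivity)]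
          nlinarith
        have h5 : (1 : ℝ) / (2 * k) ≤ 1 / k := by
          rw [div_le_div_iff₀ (by positivity) hkpos]
          nlinarith
        rw [h2] at h1
        linarith

/-- For at least two agents with positive entitlements summing to one: if all entitlements are
at most one half then every APS-fair allocation (additive goods) is PROP1, and if some
entitlement exceeds one half then some APS-fair allocation, in an instance with identical
strictly positive additive valuations, is not PROP1. -/
theorem result (n : ℕ) (hn : 2 ≤ n) (w : Fin n → ℝ) (hw : ∀ i, 0 < w i)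
    (hsum : ∑ i, w i = 1) :
    ((∀ i, w i ≤ 1 / 2) → ∀ (M : Type) [Fintype M] [DecidableEq M] (v : Fin n → M → ℝ),
      (∀ i j, 0 ≤ v i j) → ∀ A : Fin n → Finset M, IsAllocation A → APSFair w v A →
        PROP1 w v A) ∧
    ((∃ i, 1 / 2 < w i) → ∃ (M : Type) (_ : Fintype M) (_ : DecidableEq M) (u : M → ℝ),
      (∀ j, 0 < u j) ∧ ∃ A : Fin n → Finset M, IsAllocation A ∧
        APSFair w (fun _ => u) A ∧ ¬ PROP1 w (fun _ => u) A) := by
  refine ⟨?_, ?_⟩
  · intro hhalf M _ _ v hv A _ hfair i
    exact positive (hv i) (hhalf i) (A i) (hfair i)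
  · rintro ⟨i₀, hi₀⟩
    exact negative hn w hw hsum i₀ hi₀

end Pool.Agent.Results.MP_4956c5_co.NotPropOne
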